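import Mathlib
import Pool.Agent.Lib.H55B.Defs

open NumberField IsDedekindDomain

namespace H55B

/-! Chunk Z1: basic facts on the Eisenstein integers.
`om = zeta_spec.toInteger`; Mathlib: IsPrimitiveRoot.toInteger, the integral power basis of a prime
cyclotomic field, `IsCyclotomicExtension.Rat.Three.*` (eta_sq etc). Since `e` is a ring hom from a
ring of characteristic zero that is a domain with fraction field F it is injective. `e om` is a
primitive cube root of unity, so its norm is 1, real part -1/2. The norm form: N(a + b om) =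
a^2 - a b + b^2 = |e(a + b om)|^2. -/

theorem om_rel : om ^ 2 + om + 1 = 0 :=
  IsCyclotomicExtension.Rat.Three.eta_sq_add_eta_add_one zeta_spec

theorem exists_repr (x : O) : ∃ a b : ℤ, x = a + b * om := by
  obtain ⟨f, hf, hx⟩ := (zeta_spec.integralPowerBasis).exists_eq_aeval x
  rw [IsPrimitiveRoot.integralPowerBasis_dim] at hf
  have h2 : Nat.totient 3 = 2 := by decide
  rw [h2] at hf
  obtain ⟨b, a, hfa⟩ := Polynomial.exists_eq_X_add_C_of_natDegree_le_one
    (Nat.lt_succ_iff.1 hf)
  refine ⟨a, b, ?_⟩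
  rw [hx, hfa, IsPrimitiveRoot.integralPowerBasis_gen]
  simp only [map_add, map_mul, Polynomial.aeval_X, eq_intCast, map_intCast]
  rw [add_comm]
  rfl

theorem e_injective : Function.Injective e := by
  intro x y h
  have h1 : emb (algebraMap O F x) = emb (algebraMap O F y) := h
  exact RingOfIntegers.coe_injective (emb.injective h1)

theorem e_om_rel : (e om) ^ 2 + e om + 1 = 0 := by
  have h := congrArg e om_rel
  simpa using h

theorem norm_e_om : ‖e om‖ = 1 := by
  have h : (e om) ^ 3 = 1 := by
    have h1 := e_om_rel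
    linear_combination (e om - 1) * h1
  exact Complex.norm_eq_one_of_pow_eq_one h (by norm_num)

theorem Z1_im : (e om).im ≠ 0 := by
  intro h0
  have h1 := congrArg Complex.re e_om_rel
  simp only [pow_two, Complex.add_re, Complex.mul_re, Complex.one_re, Complex.zero_re, h0] at h1
  nlinarith [sq_nonneg ((e om).re + 1 / 2)]

theorem e_om_re : (e om).re = -1 / 2 := by
  have h2 := congrArg Complex.im e_om_rel
  simp only [pow_two, Complex.add_im, Complex.mul_im, Complex.one_im, Complex.zero_im] at h2
  have h3 : (e om).im * (2 * (e om).re + 1) = 0 := by linarith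
  have h4 := (mul_eq_zero.1 h3).resolve_left Z1_im
  linarith

theorem Z1_e_repr (a b : ℤ) : e ((a : O) + b * om) = a + b * e om := by
  simp

theorem Z1_zero {a b : ℤ} (h : (a : O) + b * om = 0) : a = 0 ∧ b = 0 := by
  have h1 := congrArg e h
  rw [Z1_e_repr, map_zero] at h1
  have h2 := congrArg Complex.im h1
  simp only [Complex.add_im, Complex.mul_im, Complex.intCast_re, Complex.intCast_im,
    Complex.zero_im, zero_mul, add_zero, zero_add] at h2
  have h3 : (b : ℝ) = 0 := (mul_eq_zero.1 h2).resolve_right Z1_im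
  have h4 : b = 0 := by exact_mod_cast h3
  have h5 := congrArg Complex.re h1
  rw [h4] at h5
  simp only [Complex.add_re, Complex.mul_re, Complex.intCast_re, Complex.intCast_im,
    Complex.zero_re, zero_mul, sub_zero, Int.cast_zero, add_zero] at h5
  exact ⟨by exact_mod_cast h5, h4⟩

theorem repr_unique {a b c d : ℤ} (h : (a : O) + b * om = c + d * om) : a = c ∧ b = d := by
  have h1 : ((a - c : ℤ) : O) + ((b - d : ℤ) : O) * om = 0 := by
    push_cast
    linear_combination h
  have h2 := Z1_zero h1
  omega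

noncomputable def Z1_basis : Module.Basis (Fin 2) ℤ O :=
  Module.Basis.mk (v := ![1, om]) (by
    rw [LinearIndependent.pair_iff]
    intro s t h
    apply Z1_zero
    simpa [zsmul_eq_mul] using h) (by
    intro x _
    obtain ⟨a, b, rfl⟩ := exists_repr x
    have h1 : (1 : O) ∈ Submodule.span ℤ (Set.range ![(1 : O), om]) :=
      Submodule.subset_span ⟨0, rfl⟩
    have h2 : om ∈ Submodule.span ℤ (Set.range ![(1 : O), om]) :=
      Submodule.subset_span ⟨1, rfl⟩
    have h3 := Submodule.add_mem _ (Submodule.smul_mem _ a h1) (Submodule.smul_mem _ b h2)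
    simpa [zsmul_eq_mul] using h3)

theorem Z1_basis_zero : Z1_basis 0 = 1 := by
  simp [Z1_basis]

theorem Z1_basis_one : Z1_basis 1 = om := by
  simp [Z1_basis]

theorem Z1_repr (a b : ℤ) : Z1_basis.repr ((a : O) + b * om) =
    Finsupp.single 0 a + Finsupp.single 1 b := by
  have : (a : O) + b * om = a • Z1_basis 0 + b • Z1_basis 1 := by
    rw [Z1_basis_zero, Z1_basis_one]
    simp [zsmul_eq_mul]
  rw [this, map_add, map_smul, map_smul, Module.Basis.repr_self, Module.Basis.repr_self]
  simp

theorem Z1_norm (a b : ℤ) : Algebra.norm ℤ ((a : O) + b * om) = a ^ 2 - a * b + b ^ 2 := by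
  rw [Algebra.norm_eq_matrix_det Z1_basis, Matrix.det_fin_two]
  simp only [Algebra.leftMulMatrix_eq_repr_mul, Z1_basis_zero, Z1_basis_one, mul_one]
  have h : ((a : O) + b * om) * om = ((-b : ℤ) : O) + ((a - b : ℤ) : O) * om := by
    have := om_rel
    push_cast
    linear_combination (b : O) * this
  rw [h, Z1_repr, Z1_repr]
  simp
  ring

theorem Nm_repr (a b : ℤ) : (Nm (a + b * om) : ℤ) = a ^ 2 - a * b + b ^ 2 := by
  unfold Nm
  rw [Ideal.absNorm_span_singleton, Z1_norm, Int.natCast_natAbs, abs_of_nonneg]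
  nlinarith [sq_nonneg (a - b), sq_nonneg a, sq_nonneg b, sq_nonneg (a + b)]

theorem Nm_eq (x : O) : (Nm x : ℝ) = ‖e x‖ ^ 2 := by
  obtain ⟨a, b, rfl⟩ := exists_repr x
  have h1 : ((Nm (a + b * om) : ℤ) : ℝ) = ((a ^ 2 - a * b + b ^ 2 : ℤ) : ℝ) := by rw [Nm_repr]
  rw [Int.cast_natCast] at h1
  rw [h1, Z1_e_repr, Complex.sq_norm, Complex.normSq_apply]
  have h2 : (e om).re * (e om).re + (e om).im * (e om).im = 1 := by
    rw [← Complex.normSq_apply, ← Complex.sq_norm, norm_e_om, one_pow]
  have h3 := e_om_re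
  simp only [Complex.add_re, Complex.add_im, Complex.mul_re, Complex.mul_im, Complex.intCast_re,
    Complex.intCast_im, zero_mul, sub_zero, add_zero, zero_add]
  push_cast
  have h4 : ((a : ℝ) + b * (e om).re) * (a + b * (e om).re) + b * (e om).im * (b * (e om).im) =
      a ^ 2 + 2 * a * b * (e om).re + b ^ 2 * ((e om).re * (e om).re + (e om).im * (e om).im) := by
    ring
  rw [h4, h2, h3]
  ring

theorem Nm_mul (x y : O) : Nm (x * y) = Nm x * Nm y := by
  unfold Nm
  rw [← map_mul, Ideal.span_singleton_mul_span_singleton]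

theorem Nm_eq_zero {x : O} : Nm x = 0 ↔ x = 0 := by
  unfold Nm
  rw [Ideal.absNorm_eq_zero_iff, Ideal.span_singleton_eq_bot]

theorem Nm_eq_one {x : O} : Nm x = 1 ↔ IsUnit x := by
  unfold Nm
  rw [Ideal.absNorm_eq_one_iff, Ideal.span_singleton_eq_top]

end H55B
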