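import Mathlib
import Pool.Agent.Lib.H55B.Z1

open NumberField IsDedekindDomain

namespace H55B

/-! Chunk Z2: complex conjugation on the Eisenstein integers, the prime 2, units.
cj: the automorphism of F given by om -> om^2 (or: complex conjugation maps e(O) to itself, by
exists_repr, since conj (e om) = e (om^2)). Two is prime: O/2 has 4 elements; if 2 divides x y with
x = a + b om, y = c + d om then N(x) N(y) is divisible by 4, so one of the norms a^2 - a b + b^2 is even,
hence a and b are even. Units: IsCyclotomicExtension.Rat.Three.Units.mem. -/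

private lemma e_om_cube : (e om) ^ 3 = 1 := by
  have h := e_om_rel
  linear_combination (e om - 1) * h

private lemma conj_e_om : (starRingEnd ℂ) (e om) = (e om) ^ 2 := by
  have h1 : (e om) * (starRingEnd ℂ) (e om) = 1 := by
    rw [Complex.mul_conj, Complex.normSq_eq_norm_sq, norm_e_om]; simp
  have h3 := e_om_cube
  calc (starRingEnd ℂ) (e om) = (e om) ^ 3 * (starRingEnd ℂ) (e om) := by rw [h3, one_mul]
    _ = (e om) ^ 2 * ((e om) * (starRingEnd ℂ) (e om)) := by ring
    _ = (e om) ^ 2 := by rw [h1, mul_one]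

theorem exists_cj : ∃ c : O ≃+* O, ∀ x, e (c x) = (starRingEnd ℂ) (e x) := by
  have h : ∀ x : O, ∃ y : O, e y = (starRingEnd ℂ) (e x) := by
    intro x
    obtain ⟨a, b, rfl⟩ := exists_repr x
    refine ⟨a + b * om ^ 2, ?_⟩
    simp only [map_add, map_mul, map_pow, map_intCast, conj_e_om]
  choose c hc using h
  have hcc : ∀ x, c (c x) = x := fun x => e_injective (by rw [hc, hc, Complex.conj_conj])
  exact ⟨{ toFun := c
           invFun := c
           left_inv := hcc
           right_inv := hcc
           map_mul' := fun x y => e_injective (by simp only [hc, map_mul])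
           map_add' := fun x y => e_injective (by simp only [hc, map_add]) }, hc⟩

/-- Complex conjugation on the Eisenstein integers. -/
noncomputable def cj : O ≃+* O := exists_cj.choose

theorem e_cj (x : O) : e (cj x) = (starRingEnd ℂ) (e x) := exists_cj.choose_spec x

theorem cj_om : cj om = om ^ 2 := by
  apply e_injective
  rw [e_cj, conj_e_om, map_pow]

theorem cj_cj (x : O) : cj (cj x) = x := by
  apply e_injective
  rw [e_cj, e_cj, Complex.conj_conj]

theorem mul_cj (x : O) : x * cj x = (Nm x : O) := by
  apply e_injective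
  rw [map_mul, e_cj, Complex.mul_conj, Complex.normSq_eq_norm_sq, ← Nm_eq, map_natCast]
  simp

private lemma Nm_two : Nm (2 : O) = 4 := by
  have h := Nm_repr 2 0
  have h2 : ((2 : ℤ) : O) + ((0 : ℤ) : O) * om = 2 := by push_cast; ring
  rw [h2] at h
  norm_num at h
  exact_mod_cast h

theorem two_prime : Prime (2 : O) := by
  have key : ∀ x : O, 2 ∣ Nm x → (2 : O) ∣ x := by
    intro x hx
    obtain ⟨a, b, rfl⟩ := exists_repr x
    have h1 : (2 : ℤ) ∣ a ^ 2 - a * b + b ^ 2 := by
      rw [← Nm_repr]; exact_mod_cast hx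
    have hab : (2 : ℤ) ∣ a ∧ (2 : ℤ) ∣ b := by
      rcases Int.even_or_odd a with ha | ha <;> rcases Int.even_or_odd b with hb | hb
      · exact ⟨ha.two_dvd, hb.two_dvd⟩
      · exfalso
        obtain ⟨m, hm⟩ := ha
        obtain ⟨n, hn⟩ := hb
        subst hm hn
        obtain ⟨k, hk⟩ := h1
        ring_nf at hk
        omega
      · exfalso
        obtain ⟨m, hm⟩ := ha
        obtain ⟨n, hn⟩ := hb
        subst hm hn
        obtain ⟨k, hk⟩ := h1
        ring_nf at hk
        omega
      · exfalso
        obtain ⟨m, hm⟩ := ha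
        obtain ⟨n, hn⟩ := hb
        subst hm hn
        obtain ⟨k, hk⟩ := h1
        ring_nf at hk
        omega
    obtain ⟨⟨m, rfl⟩, ⟨n, rfl⟩⟩ := hab
    exact ⟨m + n * om, by push_cast; ring⟩
  refine ⟨two_ne_zero, ?_, ?_⟩
  · intro h
    have := Nm_eq_one.mpr h
    rw [Nm_two] at this
    norm_num at this
  · intro x y hxy
    obtain ⟨z, hz⟩ := hxy
    have h := congrArg Nm hz
    rw [Nm_mul, Nm_mul, Nm_two] at h
    have h2 : 2 ∣ Nm x * Nm y := ⟨2 * Nm z, by rw [h]; ring⟩
    rcases (Nat.Prime.dvd_mul Nat.prime_two).mp h2 with h3 | h3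
    · exact Or.inl (key x h3)
    · exact Or.inr (key y h3)

theorem lam_prime : Prime (om - 1 : O) := by
  have hN : Nm (om - 1 : O) = 3 := by
    have h := Nm_repr (-1) 1
    have h2 : ((-1 : ℤ) : O) + ((1 : ℤ) : O) * om = om - 1 := by push_cast; ring
    rw [h2] at h
    norm_num at h
    exact_mod_cast h
  have hne : (om - 1 : O) ≠ 0 := by
    intro h
    rw [h] at hN
    rw [Nm_eq_zero.mpr rfl] at hN
    norm_num at hN
  have hI : (Ideal.span {(om - 1 : O)}).IsPrime := by
    apply Ideal.isPrime_of_irreducible_absNorm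
    have : Ideal.absNorm (Ideal.span {(om - 1 : O)}) = 3 := hN
    rw [this]
    exact Nat.prime_three
  exact (Ideal.span_singleton_prime hne).mp hI

/-- 3 = -om^2 (om - 1)^2. -/
theorem three_eq : (3 : O) = -om ^ 2 * (om - 1) ^ 2 := by
  have h := om_rel
  linear_combination (om ^ 2 - 3 * om + 3) * h

theorem unit_cases (u : Oˣ) : (u : O) = 1 ∨ (u : O) = -1 ∨ (u : O) = om ∨ (u : O) = -om ∨
    (u : O) = om ^ 2 ∨ (u : O) = -om ^ 2 := by
  have h := IsCyclotomicExtension.Rat.Three.Units.mem zeta_spec u
  simp only [List.mem_cons, List.mem_nil_iff, or_false] at h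
  rcases h with h | h | h | h | h | h
  · left; rw [h]; rfl
  · right; left; rw [h]; rfl
  · right; right; left; rw [h]; rfl
  · right; right; right; left; rw [h]; rfl
  · right; right; right; right; left; rw [h]; rfl
  · right; right; right; right; right; rw [h]; rfl

end H55B
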