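import Mathlib
import Pool.Agent.Lib.H55B.Z2

open NumberField IsDedekindDomain

namespace H55B

/-! Chunk J0: the sextic field M = F(2^(1/3)) and its cubic subfield L = Q(2^(1/3)).
M = AdjoinRoot (X^3 - 2 : F[X]) (irreducible: 2 is prime in O so it is not a cube in F; degree 3 without root),
L = AdjoinRoot (X^3 - 2 : Q[X]), L -> M by lifting. tau lifts root -> om root over F; sigma lifts the
conjugation of F (the field automorphism extending cj) and fixes the root. Basis 1, theta, theta^2.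
fix_sig: z = a + b theta + c theta^2 with a, b, c in F fixed by conjugation, hence rational. -/

/-- The field data: M = F(theta), theta^3 = 2, L = Q(t) its real cubic subfield, tau of order 3 over F, sigma
the conjugation fixing L. -/
structure Sextic (M : Type) [Field M] [NumberField M] [Algebra F M] (L : Type) [Field L] [NumberField L]
    [Algebra L M] (θ : M) (t : L) (τ σ : M ≃+* M) : Prop where
  cube : θ ^ 3 = 2
  map_t : algebraMap L M t = θ
  tau_theta : τ θ = algebraMap O M om * θ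
  tau_F : ∀ x : F, τ (algebraMap F M x) = algebraMap F M x
  tau_tau : ∀ z, τ (τ (τ z)) = z
  sig_theta : σ θ = θ
  sig_O : ∀ x : O, σ (algebraMap O M x) = algebraMap O M (cj x)
  sig_sig : ∀ z, σ (σ z) = z
  span : ∀ z : M, ∃ a b c : F, z = algebraMap F M a + algebraMap F M b * θ + algebraMap F M c * θ ^ 2
  indep : ∀ a b c : F, algebraMap F M a + algebraMap F M b * θ + algebraMap F M c * θ ^ 2 = 0 →
    a = 0 ∧ b = 0 ∧ c = 0
  lspan : ∀ z : L, ∃ a b c : ℚ, z = (a : L) + b * t + c * t ^ 2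
  lindep : ∀ a b c : ℚ, (a : L) + b * t + c * t ^ 2 = 0 → a = 0 ∧ b = 0 ∧ c = 0
  fix_sig : ∀ z : M, σ z = z → ∃ c : L, algebraMap L M c = z

section J0gen

open Polynomial

variable (K : Type) [Field K]

/-- The polynomial `X ^ 3 - 2`. -/
noncomputable def J0_p : K[X] := X ^ 3 - C 2

theorem J0_monic : (J0_p K).Monic := monic_X_pow_sub_C _ (by norm_num)

theorem J0_natDegree : (J0_p K).natDegree = 3 := natDegree_X_pow_sub_C

theorem J0_eval {S : Type} [CommRing S] (i : K →+* S) (x : S) (hx : x ^ 3 = 2) :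
    (J0_p K).eval₂ i x = 0 := by
  unfold J0_p
  rw [eval₂_sub, eval₂_X_pow, eval₂_C, sub_eq_zero, map_ofNat, hx]

theorem J0_root_cube : (AdjoinRoot.root (J0_p K)) ^ 3 = 2 := by
  have h := AdjoinRoot.eval₂_root (J0_p K)
  unfold J0_p at h
  rw [eval₂_sub, eval₂_X_pow, eval₂_C, sub_eq_zero, map_ofNat] at h
  exact h

theorem J0_span (z : AdjoinRoot (J0_p K)) : ∃ a b c : K, z = AdjoinRoot.of (J0_p K) a +
    AdjoinRoot.of (J0_p K) b * AdjoinRoot.root (J0_p K) +
      AdjoinRoot.of (J0_p K) c * AdjoinRoot.root (J0_p K) ^ 2 := by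
  obtain ⟨p, rfl⟩ := AdjoinRoot.mk_surjective z
  have h1 : AdjoinRoot.mk (J0_p K) p = AdjoinRoot.mk (J0_p K) (p %ₘ J0_p K) := by
    rw [AdjoinRoot.mk_eq_mk]
    exact ⟨p /ₘ J0_p K, by
      have := modByMonic_add_div p (J0_p K)
      linear_combination -this⟩
  have h2 : (p %ₘ J0_p K).natDegree < 3 := by
    have := natDegree_modByMonic_lt p (J0_monic K) (by
      intro h
      have h3 := J0_natDegree K
      rw [h, natDegree_one] at h3
      omega)
    rwa [J0_natDegree] at this
  refine ⟨(p %ₘ J0_p K).coeff 0, (p %ₘ J0_p K).coeff 1, (p %ₘ J0_p K).coeff 2, ?_⟩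
  rw [h1]
  conv_lhs => rw [(p %ₘ J0_p K).as_sum_range' 3 h2]
  simp only [Finset.sum_range_succ, Finset.sum_range_zero, zero_add, map_add]
  simp only [← C_mul_X_pow_eq_monomial, map_mul, AdjoinRoot.mk_C, map_pow, AdjoinRoot.mk_X,
    pow_zero, mul_one, pow_one]

theorem J0_indep (a b c : K) (h : AdjoinRoot.of (J0_p K) a +
    AdjoinRoot.of (J0_p K) b * AdjoinRoot.root (J0_p K) +
      AdjoinRoot.of (J0_p K) c * AdjoinRoot.root (J0_p K) ^ 2 = 0) : a = 0 ∧ b = 0 ∧ c = 0 := by
  have h1 : AdjoinRoot.mk (J0_p K) (C a + C b * X + C c * X ^ 2) = 0 := by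
    simp only [map_add, map_mul, map_pow, AdjoinRoot.mk_C, AdjoinRoot.mk_X]
    exact h
  rw [AdjoinRoot.mk_eq_zero] at h1
  have h2 : (C a + C b * X + C c * X ^ 2 : K[X]) = 0 := by
    by_contra hne
    have h3 := natDegree_le_of_dvd h1 hne
    rw [J0_natDegree] at h3
    have h4 : (C a + C b * X + C c * X ^ 2 : K[X]).natDegree ≤ 2 := by compute_degree
    omega
  refine ⟨?_, ?_, ?_⟩
  · have := congrArg (fun q : K[X] => q.coeff 0) h2
    simpa using this
  · have := congrArg (fun q : K[X] => q.coeff 1) h2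
    simpa [coeff_X, coeff_C] using this
  · have := congrArg (fun q : K[X] => q.coeff 2) h2
    simpa [coeff_X, coeff_C] using this

end J0gen

theorem J0_no_cube (b : F) : b ^ 3 ≠ 2 := by
  intro hb
  have hint : IsIntegral O b := by
    refine ⟨Polynomial.X ^ 3 - Polynomial.C 2, Polynomial.monic_X_pow_sub_C _ (by norm_num), ?_⟩
    rw [Polynomial.eval₂_sub, Polynomial.eval₂_X_pow, Polynomial.eval₂_C, sub_eq_zero, map_ofNat,
      hb]
  obtain ⟨x, hx⟩ := IsIntegrallyClosed.isIntegral_iff.1 hint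
  have h1 : x ^ 3 = 2 := by
    have h : algebraMap O F (x ^ 3) = algebraMap O F 2 := by
      rw [map_pow, hx, hb, map_ofNat]
    exact IsFractionRing.injective O F h
  have h2 : (2 : O) ∣ x := two_prime.dvd_of_dvd_pow (n := 3) (by rw [h1])
  obtain ⟨z, rfl⟩ := h2
  have h3 : (2 : O) * (4 * z ^ 3) = 2 * 1 := by linear_combination h1
  have h4 : (4 * z ^ 3 : O) = 1 := mul_left_cancel₀ two_prime.ne_zero h3
  exact two_prime.not_isUnit (isUnit_iff_exists_inv.2 ⟨2 * z ^ 3, by linear_combination h4⟩)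

theorem J0_no_cube_rat (b : ℚ) : b ^ 3 ≠ 2 := by
  intro hb
  apply J0_no_cube (b : F)
  exact_mod_cast congrArg (fun q : ℚ => (q : F)) hb

instance J0_fact : Fact (Irreducible (J0_p F)) :=
  ⟨X_pow_sub_C_irreducible_of_prime Nat.prime_three J0_no_cube⟩

instance J0_fact_rat : Fact (Irreducible (J0_p ℚ)) :=
  ⟨X_pow_sub_C_irreducible_of_prime Nat.prime_three J0_no_cube_rat⟩

/-- The sextic field. -/
abbrev J0_M : Type := AdjoinRoot (J0_p F)

/-- The cubic field. -/
abbrev J0_L : Type := AdjoinRoot (J0_p ℚ)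

instance J0_nfM : NumberField J0_M := by
  have : Module.Finite F J0_M := (AdjoinRoot.powerBasis' (J0_monic F)).finite
  exact NumberField.of_module_finite F J0_M

instance J0_nfL : NumberField J0_L := by
  have : Module.Finite ℚ J0_L := (AdjoinRoot.powerBasis' (J0_monic ℚ)).finite
  exact NumberField.of_module_finite ℚ J0_L

/-- The embedding of the cubic field into the sextic field. -/
noncomputable def J0_i : J0_L →+* J0_M :=
  AdjoinRoot.lift ((AdjoinRoot.of (J0_p F)).comp (algebraMap ℚ F)) (AdjoinRoot.root (J0_p F))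
    (J0_eval _ _ _ (J0_root_cube F))

/-- The conjugation of `F`. -/
noncomputable def J0_c : F ≃+* F := IsFractionRing.ringEquivOfRingEquiv (A := O) (B := O) cj

theorem J0_c_apply (x : O) : J0_c (algebraMap O F x) = algebraMap O F (cj x) :=
  IsFractionRing.ringEquivOfRingEquiv_algebraMap cj x

theorem J0_c_c (x : F) : J0_c (J0_c x) = x := by
  obtain ⟨a, b, hb, rfl⟩ := IsFractionRing.div_surjective (A := O) x
  rw [map_div₀, map_div₀, J0_c_apply, J0_c_apply, J0_c_apply, J0_c_apply, cj_cj, cj_cj]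

theorem J0_c_fix (x : F) (hx : J0_c x = x) : ∃ q : ℚ, x = q := by
  obtain ⟨a, b, hb, rfl⟩ := IsFractionRing.div_surjective (A := O) x
  have hb0 : b ≠ 0 := nonZeroDivisors.ne_zero hb
  have hN : Nm b ≠ 0 := fun h => hb0 (Nm_eq_zero.1 h)
  obtain ⟨u, v, huv⟩ := exists_repr (a * cj b)
  have h1 : algebraMap O F a / algebraMap O F b = algebraMap O F (a * cj b) / (Nm b : F) := by
    have h2 : (Nm b : F) = algebraMap O F b * algebraMap O F (cj b) := by
      rw [← map_mul, mul_cj, map_natCast]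
    have h3 : algebraMap O F b ≠ 0 := by
      intro h
      exact hb0 (IsFractionRing.injective O F (by rw [h, map_zero]))
    have h4 : algebraMap O F (cj b) ≠ 0 := by
      intro h
      have h5 : cj b = 0 := IsFractionRing.injective O F (by rw [h, map_zero])
      exact hb0 (by rw [← cj_cj b, h5, map_zero])
    rw [h2, map_mul]
    field_simp
  rw [h1] at hx ⊢
  have hN' : (Nm b : F) ≠ 0 := by exact_mod_cast hN
  rw [map_div₀, map_natCast, J0_c_apply] at hx
  have h6 : cj (a * cj b) = a * cj b := by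
    apply IsFractionRing.injective O F
    field_simp at hx
    exact hx
  rw [huv] at h6 ⊢
  have h7 : v = 0 := by
    rw [map_add, map_mul, map_intCast, map_intCast, cj_om] at h6
    have h8 : ((u - v : ℤ) : O) + ((-v : ℤ) : O) * om = u + v * om := by
      push_cast
      linear_combination h6 - v * om_rel
    have := (repr_unique h8).2
    omega
  subst h7
  refine ⟨(u : ℚ) / (Nm b : ℚ), ?_⟩
  push_cast
  simp

/-- The endomorphism `τ`. -/
noncomputable def J0_t : J0_M →+* J0_M :=
  AdjoinRoot.lift (AdjoinRoot.of (J0_p F))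
    (algebraMap O J0_M om * AdjoinRoot.root (J0_p F)) (J0_eval _ _ _ (by
    rw [mul_pow, ← map_pow]
    have h : om ^ 3 = 1 := by linear_combination (om - 1) * om_rel
    rw [h, map_one, one_mul]
    exact J0_root_cube F))

/-- The endomorphism `σ`. -/
noncomputable def J0_s : J0_M →+* J0_M :=
  AdjoinRoot.lift ((AdjoinRoot.of (J0_p F)).comp (J0_c : F →+* F))
    (AdjoinRoot.root (J0_p F))
    (J0_eval _ _ _ (J0_root_cube F))

theorem J0_t_root : J0_t (AdjoinRoot.root (J0_p F)) =
    algebraMap O J0_M om * AdjoinRoot.root (J0_p F) := AdjoinRoot.lift_root _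

theorem J0_t_of (x : F) : J0_t (AdjoinRoot.of (J0_p F) x) = AdjoinRoot.of (J0_p F) x :=
  AdjoinRoot.lift_of _

theorem J0_s_root : J0_s (AdjoinRoot.root (J0_p F)) = AdjoinRoot.root (J0_p F) :=
  AdjoinRoot.lift_root _

theorem J0_s_of (x : F) : J0_s (AdjoinRoot.of (J0_p F) x) = AdjoinRoot.of (J0_p F) (J0_c x) :=
  AdjoinRoot.lift_of _

theorem J0_algO (x : O) : algebraMap O J0_M x = AdjoinRoot.of (J0_p F) (algebraMap O F x) := rfl

theorem J0_ttt (z : J0_M) : J0_t (J0_t (J0_t z)) = z := by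
  have h : om ^ 3 = 1 := by linear_combination (om - 1) * om_rel
  have h1 : (J0_t.comp (J0_t.comp J0_t)) = RingHom.id J0_M := by
    apply AdjoinRoot.ringHom_ext
    · ext x
      simp only [RingHom.comp_apply, RingHom.id_apply, J0_t_of]
    · simp only [RingHom.comp_apply, RingHom.id_apply, J0_t_root, map_mul, J0_algO, J0_t_of]
      rw [← mul_assoc, ← mul_assoc, ← map_mul, ← map_mul, ← map_mul, ← map_mul]
      have h2 : om * om * om = 1 := by rw [← h]; ring
      rw [h2, map_one, map_one, one_mul]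
  exact congrArg (fun f : J0_M →+* J0_M => f z) h1

theorem J0_ss (z : J0_M) : J0_s (J0_s z) = z := by
  have h1 : (J0_s.comp J0_s) = RingHom.id J0_M := by
    apply AdjoinRoot.ringHom_ext
    · ext x
      simp only [RingHom.comp_apply, RingHom.id_apply, J0_s_of, J0_c_c]
    · simp only [RingHom.comp_apply, RingHom.id_apply, J0_s_root]
  exact congrArg (fun f : J0_M →+* J0_M => f z) h1

/-- The automorphism `τ`. -/
noncomputable def J0_tau : J0_M ≃+* J0_M :=
  { J0_t with
    invFun := fun z => J0_t (J0_t z)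
    left_inv := fun z => J0_ttt z
    right_inv := fun z => J0_ttt z }

/-- The automorphism `σ`. -/
noncomputable def J0_sig : J0_M ≃+* J0_M :=
  { J0_s with
    invFun := fun z => J0_s z
    left_inv := fun z => J0_ss z
    right_inv := fun z => J0_ss z }

theorem J0_i_root : J0_i (AdjoinRoot.root (J0_p ℚ)) = AdjoinRoot.root (J0_p F) :=
  AdjoinRoot.lift_root (J0_eval _ _ _ (J0_root_cube F))

theorem exists_sextic : ∃ (M : Type) (_ : Field M) (_ : NumberField M) (_ : Algebra F M)
    (L : Type) (_ : Field L) (_ : NumberField L) (_ : Algebra L M) (θ : M) (t : L) (τ σ : M ≃+* M),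
    Sextic M L θ t τ σ := by
  let _ : Algebra J0_L J0_M := J0_i.toAlgebra
  refine ⟨J0_M, inferInstance, inferInstance, inferInstance, J0_L, inferInstance, inferInstance,
    J0_i.toAlgebra, AdjoinRoot.root (J0_p F), AdjoinRoot.root (J0_p ℚ), J0_tau, J0_sig, ?_⟩
  refine ⟨J0_root_cube F, J0_i_root, J0_t_root, J0_t_of, J0_ttt, J0_s_root, ?_, J0_ss,
    J0_span F, J0_indep F, ?_, ?_, ?_⟩
  · intro x
    rw [J0_algO, J0_algO, ← J0_c_apply]
    exact J0_s_of _
  · intro z
    obtain ⟨a, b, c, h⟩ := J0_span ℚ z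
    refine ⟨a, b, c, ?_⟩
    rw [h, eq_ratCast, eq_ratCast, eq_ratCast]
  · intro a b c h
    apply J0_indep ℚ a b c
    rw [eq_ratCast, eq_ratCast, eq_ratCast]
    exact h
  · intro z hz
    obtain ⟨a, b, c, rfl⟩ := J0_span F z
    have h1 : J0_s (AdjoinRoot.of (J0_p F) a +
        AdjoinRoot.of (J0_p F) b * AdjoinRoot.root (J0_p F) +
        AdjoinRoot.of (J0_p F) c * AdjoinRoot.root (J0_p F) ^ 2) = AdjoinRoot.of (J0_p F) a +
        AdjoinRoot.of (J0_p F) b * AdjoinRoot.root (J0_p F) +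
        AdjoinRoot.of (J0_p F) c * AdjoinRoot.root (J0_p F) ^ 2 := hz
    rw [map_add, map_add, map_mul, map_mul, map_pow, J0_s_root, J0_s_of, J0_s_of, J0_s_of] at h1
    have h2 := J0_indep F (J0_c a - a) (J0_c b - b) (J0_c c - c) (by
      rw [map_sub, map_sub, map_sub]
      linear_combination h1)
    obtain ⟨qa, ha⟩ := J0_c_fix a (sub_eq_zero.1 h2.1)
    obtain ⟨qb, hb⟩ := J0_c_fix b (sub_eq_zero.1 h2.2.1)
    obtain ⟨qc, hc⟩ := J0_c_fix c (sub_eq_zero.1 h2.2.2)
    refine ⟨(qa : J0_L) + qb * AdjoinRoot.root (J0_p ℚ) + qc * AdjoinRoot.root (J0_p ℚ) ^ 2, ?_⟩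
    change J0_i _ = _
    rw [map_add, map_add, map_mul, map_mul, map_pow, map_ratCast, map_ratCast, map_ratCast,
      J0_i_root,
      ha, hb, hc, map_ratCast, map_ratCast, map_ratCast]

end H55B
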