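import Mathlib
import Pool.Agent.Lib.H55B.Z2

open NumberField IsDedekindDomain

namespace H55B

/-! Chunk Z3: primary elements and primary generators.
(O/3)^* has 6 elements and the 6 units are distinct mod 3, so every x coprime to 3 has exactly one unit
multiple congruent to 1 mod 3 (elementary: x = a + b om coprime to 3 iff 3 does not divide
a^2 - a b + b^2 iff a + b is not divisible by 3; go through the residues of (a, b) mod 3).
gen v: v.asIdeal is principal (O is a PID), its generator is coprime to 3 since 3 is not in v. -/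

theorem Z3_three_dvd {c d : ℤ} (h : (3 : O) ∣ (c : O) + d * om) : (3 : ℤ) ∣ c ∧ (3 : ℤ) ∣ d := by
  obtain ⟨z, hz⟩ := h
  obtain ⟨a, b, rfl⟩ := exists_repr z
  have h1 : (c : O) + d * om = ((3 * a : ℤ) : O) + ((3 * b : ℤ) : O) * om := by
    rw [hz]
    push_cast
    ring
  obtain ⟨h2, h3⟩ := repr_unique h1
  exact ⟨⟨a, h2⟩, ⟨b, h3⟩⟩

theorem Z3_om_cube : om ^ 3 = (1 : O) := by
  have h := om_rel
  linear_combination (om - 1) * h

/-- the unit om -/
noncomputable def Z3_omU : Oˣ := ⟨om, om ^ 2, by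
  have h := Z3_om_cube
  linear_combination h, by
  have h := Z3_om_cube
  linear_combination h⟩

theorem prim_one : Prim 1 := by
  unfold Prim
  rw [sub_self]
  exact dvd_zero _

theorem Prim.mul {x y : O} (hx : Prim x) (hy : Prim y) : Prim (x * y) := by
  obtain ⟨a, ha⟩ := hx
  obtain ⟨b, hb⟩ := hy
  refine ⟨a * y + b, ?_⟩
  linear_combination y * ha + hb

theorem Prim.coprime {x : O} (hx : Prim x) : IsCoprime x 3 := by
  obtain ⟨a, ha⟩ := hx
  refine ⟨1, -a, ?_⟩
  linear_combination ha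

theorem Prim.ne_zero {x : O} (hx : Prim x) : x ≠ 0 := by
  rintro rfl
  have h : (3 : O) ∣ ((-1 : ℤ) : O) + ((0 : ℤ) : O) * om := by
    have h1 : (3 : O) ∣ 0 - 1 := hx
    simpa using h1
  have := (Z3_three_dvd h).1
  omega

theorem Z3_lam_dvd_three : (om - 1 : O) ∣ 3 := by
  rw [three_eq]
  exact ⟨-om ^ 2 * (om - 1), by ring⟩

theorem exists_unit_prim {x : O} (h : IsCoprime x 3) : ∃ u : Oˣ, Prim (u * x) := by
  obtain ⟨a, b, rfl⟩ := exists_repr x
  have hab : ¬ (3 : ℤ) ∣ a + b := by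
    rintro ⟨c, hc⟩
    have h1 : (om - 1 : O) ∣ (a : O) + b * om := by
      obtain ⟨d, hd⟩ := Z3_lam_dvd_three
      refine ⟨d * c + b, ?_⟩
      have hc' : (a : O) + b = 3 * c := by exact_mod_cast hc
      linear_combination hc' + (c : O) * hd
    exact lam_prime.not_unit (h.isUnit_of_dvd' h1 Z3_lam_dvd_three)
  have hrel := om_rel
  have hcube := Z3_om_cube
  obtain ⟨a', ha'⟩ : ∃ a', a = 3 * a' + a % 3 := ⟨a / 3, by omega⟩
  obtain ⟨b', hb'⟩ : ∃ b', b = 3 * b' + b % 3 := ⟨b / 3, by omega⟩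
  have hcases : (a % 3 = 1 ∧ b % 3 = 0) ∨ (a % 3 = 2 ∧ b % 3 = 0) ∨ (a % 3 = 0 ∧ b % 3 = 1) ∨
      (a % 3 = 0 ∧ b % 3 = 2) ∨ (a % 3 = 1 ∧ b % 3 = 1) ∨ (a % 3 = 2 ∧ b % 3 = 2) := by omega
  have hval : ((Z3_omU : Oˣ) : O) = om := rfl
  rcases hcases with ⟨h1, h2⟩ | ⟨h1, h2⟩ | ⟨h1, h2⟩ | ⟨h1, h2⟩ | ⟨h1, h2⟩ | ⟨h1, h2⟩ <;>
    rw [h1] at ha' <;> rw [h2] at hb' <;> rw [ha', hb']
  · refine ⟨1, ⟨a' + b' * om, ?_⟩⟩
    push_cast
    ring
  · refine ⟨-1, ⟨-(a' + b' * om) - 1, ?_⟩⟩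
    push_cast
    ring
  · refine ⟨Z3_omU ^ 2, ⟨om ^ 2 * (a' + b' * om), ?_⟩⟩
    rw [Units.val_pow_eq_pow_val, hval]
    push_cast
    linear_combination hcube
  · refine ⟨-Z3_omU ^ 2, ⟨-om ^ 2 * (a' + b' * om) - 1, ?_⟩⟩
    rw [Units.val_neg, Units.val_pow_eq_pow_val, hval]
    push_cast
    linear_combination -2 * hcube
  · refine ⟨-Z3_omU, ⟨-om * (a' + b' * om), ?_⟩⟩
    rw [Units.val_neg, hval]
    push_cast
    linear_combination -hrel
  · refine ⟨Z3_omU, ⟨om * (a' + b' * om) - 1, ?_⟩⟩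
    rw [hval]
    push_cast
    linear_combination 2 * hrel

theorem Prim.eq_of_associated {x y : O} (hx : Prim x) (hy : Prim y) (h : Associated x y) :
    x = y := by
  obtain ⟨u, hu⟩ := h
  have h1 : (3 : O) ∣ (u : O) - 1 := by
    obtain ⟨a, ha⟩ := hx
    obtain ⟨b, hb⟩ := hy
    refine ⟨b - a * u, ?_⟩
    linear_combination hb - (u : O) * ha + hu
  have hrel := om_rel
  rcases unit_cases u with h2 | h2 | h2 | h2 | h2 | h2
  · rw [← hu, h2, mul_one]
  · exfalso
    rw [h2] at h1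
    have h3 : (3 : O) ∣ ((-2 : ℤ) : O) + ((0 : ℤ) : O) * om := by
      convert h1 using 1
      push_cast
      ring
    have := (Z3_three_dvd h3).1
    omega
  · exfalso
    rw [h2] at h1
    have h3 : (3 : O) ∣ ((-1 : ℤ) : O) + ((1 : ℤ) : O) * om := by
      convert h1 using 1
      push_cast
      ring
    have := (Z3_three_dvd h3).1
    omega
  · exfalso
    rw [h2] at h1
    have h3 : (3 : O) ∣ ((-1 : ℤ) : O) + ((-1 : ℤ) : O) * om := by
      convert h1 using 1
      push_cast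
      ring
    have := (Z3_three_dvd h3).1
    omega
  · exfalso
    rw [h2] at h1
    have h3 : (3 : O) ∣ ((-2 : ℤ) : O) + ((-1 : ℤ) : O) * om := by
      convert h1 using 1
      push_cast
      linear_combination -hrel
    have := (Z3_three_dvd h3).1
    omega
  · exfalso
    rw [h2] at h1
    have h3 : (3 : O) ∣ ((0 : ℤ) : O) + ((1 : ℤ) : O) * om := by
      convert h1 using 1
      push_cast
      linear_combination hrel
    have := (Z3_three_dvd h3).2
    omega

theorem gen_spec (v : HeightOneSpectrum O) (h3 : (3 : O) ∉ v.asIdeal) :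
    v.asIdeal = Ideal.span {gen v} ∧ Prim (gen v) := by
  have hex : ∃ x : O, v.asIdeal = Ideal.span {x} ∧ Prim x := by
    obtain ⟨x, hx⟩ := (IsPrincipalIdealRing.principal v.asIdeal).principal
    have hx' : v.asIdeal = Ideal.span {x} := hx
    have hcop : IsCoprime x 3 := by
      rw [← Ideal.isCoprime_span_singleton_iff, Ideal.isCoprime_iff_sup_eq, ← hx']
      have hm : v.asIdeal.IsMaximal := v.isMaximal
      refine hm.out.2 _ (lt_of_le_of_ne le_sup_left ?_)
      intro heq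
      apply h3
      rw [heq]
      exact Ideal.mem_sup_right (Ideal.mem_span_singleton_self 3)
    obtain ⟨u, hu⟩ := exists_unit_prim hcop
    refine ⟨u * x, ?_, hu⟩
    rw [hx']
    exact (Ideal.span_singleton_mul_left_unit u.isUnit x).symm
  unfold gen
  rw [dif_pos hex]
  exact hex.choose_spec

theorem gen_prime (v : HeightOneSpectrum O) (h3 : (3 : O) ∉ v.asIdeal) : Prime (gen v) := by
  have h := gen_spec v h3
  have h1 : (Ideal.span {gen v}).IsPrime := h.1 ▸ v.isPrime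
  exact (Ideal.span_singleton_prime h.2.ne_zero).1 h1

theorem gen_dvd_iff (v : HeightOneSpectrum O) (h3 : (3 : O) ∉ v.asIdeal) (x : O) :
    gen v ∣ x ↔ x ∈ v.asIdeal := by
  rw [← Ideal.mem_span_singleton, ← (gen_spec v h3).1]

theorem absNorm_gen (v : HeightOneSpectrum O) (h3 : (3 : O) ∉ v.asIdeal) :
    Ideal.absNorm v.asIdeal = Nm (gen v) :=
  congrArg Ideal.absNorm (gen_spec v h3).1

/-- A primary prime element is the generator of a prime ideal. -/
theorem exists_gen_eq {p : O} (hp : Prime p) (h : Prim p) :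
    ∃ v : HeightOneSpectrum O, (3 : O) ∉ v.asIdeal ∧ gen v = p := by
  have h1 : (Ideal.span {p}).IsPrime := (Ideal.span_singleton_prime hp.ne_zero).2 hp
  have h2 : Ideal.span {p} ≠ ⊥ := by
    rw [Ne, Ideal.span_singleton_eq_bot]
    exact hp.ne_zero
  have h3 : (3 : O) ∉ Ideal.span {p} := by
    rw [Ideal.mem_span_singleton]
    intro hd
    exact hp.not_unit (h.coprime.isUnit_of_dvd' dvd_rfl hd)
  refine ⟨⟨Ideal.span {p}, h1, h2⟩, h3, ?_⟩
  have h4 := gen_spec ⟨Ideal.span {p}, h1, h2⟩ h3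
  refine h4.2.eq_of_associated h ?_
  exact Ideal.span_singleton_eq_span_singleton.1 h4.1.symm

/-- gen is injective away from 3. -/
theorem gen_inj {v w : HeightOneSpectrum O} (hv : (3 : O) ∉ v.asIdeal) (hw : (3 : O) ∉ w.asIdeal)
    (h : gen v = gen w) : v = w := by
  apply HeightOneSpectrum.ext
  rw [(gen_spec v hv).1, (gen_spec w hw).1, h]

end H55B
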